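import Pool.Agent.helper15.DH.Spec

set_option autoImplicit false

open Complex MeasureTheory

namespace Pool.Agent.DH

open Pool.Agent.helper84.DM Pool.Agent.helper78.ED

theorem RSQ (hREFL : REFL_stmt) (hDKS : DKS_stmt) (hDTS : DTS_stmt) (hQTR : QTR_stmt) :
    RSQ_stmt := by
  intro ε hε
  set k : ℕ := ⌈1 / 2 + 1 / (2 * ε)⌉₊ + 1 with hk
  obtain ⟨C₀, T₁, hC₀, h1⟩ := hREFL k (by omega)
  obtain ⟨C', hC', h2⟩ := hDKS ε hε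
  refine ⟨C₀ ^ 2 * (8 + 16 * C'), max T₁ 1, by positivity, ?_⟩
  intro T hT0 Z hZ M L hM1 hM2 hL1 hL2 hML z hz
  have hT1 : 1 ≤ T := (le_max_right _ _).trans hT0
  have hTT1 : T₁ ≤ T := (le_max_left _ _).trans hT0
  have hTp : 0 < T := by linarith
  have hM0 : 0 < M := by linarith
  have hL0 : (0 : ℝ) < L := by exact_mod_cast hL1
  have hk1 : 1 / 2 + 1 / (2 * ε) + 1 ≤ (k : ℝ) := by
    have := Nat.le_ceil (1 / 2 + 1 / (2 * ε))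
    rw [hk]; push_cast; linarith
  have hfar : T ^ k * (M * (L : ℝ)) ^ (-((k : ℝ) - 1 / 2)) ≤ 1 := by
    have h3 : 0 ≤ (k : ℝ) - 1 / 2 := by
      have : 0 < 1 / (2 * ε) := by positivity
      linarith
    have h4 : (M * (L : ℝ)) ^ (-((k : ℝ) - 1 / 2)) ≤ (T ^ (1 + ε)) ^ (-((k : ℝ) - 1 / 2)) :=
      Real.rpow_le_rpow_of_nonpos (by positivity) hML (by linarith)
    have h5 : T ^ k * (T ^ (1 + ε)) ^ (-((k : ℝ) - 1 / 2)) = T ^ (1 / 2 - ε * ((k : ℝ) - 1 / 2)) := by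
      rw [← Real.rpow_mul hTp.le, ← Real.rpow_natCast T k, ← Real.rpow_add hTp]
      congr 1; ring
    have h6 : 1 / 2 - ε * ((k : ℝ) - 1 / 2) ≤ 0 := by
      have h7 : ε * (1 / (2 * ε) + 1) ≤ ε * ((k : ℝ) - 1 / 2) :=
        mul_le_mul_of_nonneg_left (by linarith) hε.le
      have h8 : ε * (1 / (2 * ε) + 1) = 1 / 2 + ε := by field_simp
      linarith
    calc T ^ k * (M * (L : ℝ)) ^ (-((k : ℝ) - 1 / 2))
        ≤ T ^ k * (T ^ (1 + ε)) ^ (-((k : ℝ) - 1 / 2)) := mul_le_mul_of_nonneg_left h4 (by positivity)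
      _ = T ^ (1 / 2 - ε * ((k : ℝ) - 1 / 2)) := h5
      _ ≤ 1 := Real.rpow_le_one_of_one_le_of_nonpos hT1 h6
  set D : ℂ → ℂ → ℝ := fun ρ ρ' => Dt L (|ρ.im - ρ'.im| / 2) |ρ.im - ρ'.im| with hD
  have hterm : ∀ ρ ∈ Z, ∀ ρ' ∈ Z, (if Real.log T ≤ |ρ.im - ρ'.im| then
      ‖SS M (z ρ ρ') (ρ.im - ρ'.im)‖ ^ 2 else 0) ≤ C₀ ^ 2 * (8 + 2 * M * D ρ ρ' ^ 2) := by
    intro ρ hρ ρ' hρ'
    split_ifs with hlog
    · obtain ⟨hz0, hz1⟩ := hz ρ hρ ρ' hρ'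
      have h3 := h1 T hTT1 M (z ρ ρ') (ρ.im - ρ'.im) hM1 hM2 hz0 hz1 hlog (hZ ρ hρ ρ' hρ') L hL1 hL2
      have h4 : ‖SS M (z ρ ρ') (ρ.im - ρ'.im)‖ ≤ C₀ * (2 + M ^ (1 / 2 : ℝ) * D ρ ρ') := by
        refine h3.trans (mul_le_mul_of_nonneg_left ?_ hC₀.le)
        have : Dt L (|ρ.im - ρ'.im| / 2) |ρ.im - ρ'.im| = D ρ ρ' := rfl
        rw [this]
        linarith
      have h5 : (M ^ (1 / 2 : ℝ)) ^ 2 = M := by
        rw [← Real.rpow_natCast, ← Real.rpow_mul hM0.le]; norm_num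
      calc ‖SS M (z ρ ρ') (ρ.im - ρ'.im)‖ ^ 2 ≤ (C₀ * (2 + M ^ (1 / 2 : ℝ) * D ρ ρ')) ^ 2 :=
            pow_le_pow_left₀ (norm_nonneg _) h4 2
        _ = C₀ ^ 2 * (2 + M ^ (1 / 2 : ℝ) * D ρ ρ') ^ 2 := by ring
        _ ≤ C₀ ^ 2 * (8 + 2 * (M ^ (1 / 2 : ℝ) * D ρ ρ') ^ 2) := by
            apply mul_le_mul_of_nonneg_left _ (by positivity)
            nlinarith [sq_nonneg (M ^ (1 / 2 : ℝ) * D ρ ρ' - 2)]
        _ = C₀ ^ 2 * (8 + 2 * ((M ^ (1 / 2 : ℝ)) ^ 2 * D ρ ρ' ^ 2)) := by ring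
        _ = C₀ ^ 2 * (8 + 2 * M * D ρ ρ' ^ 2) := by rw [h5]; ring
    · positivity
  have hsum : ∑ ρ ∈ Z, ∑ ρ' ∈ Z, (if Real.log T ≤ |ρ.im - ρ'.im| then
      ‖SS M (z ρ ρ') (ρ.im - ρ'.im)‖ ^ 2 else 0)
      ≤ C₀ ^ 2 * (8 * (Z.card : ℝ) ^ 2 + 2 * M * ∑ ρ ∈ Z, ∑ ρ' ∈ Z, D ρ ρ' ^ 2) := by
    calc _ ≤ ∑ ρ ∈ Z, ∑ ρ' ∈ Z, C₀ ^ 2 * (8 + 2 * M * D ρ ρ' ^ 2) :=
          Finset.sum_le_sum fun ρ hρ => Finset.sum_le_sum fun ρ' hρ' => hterm ρ hρ ρ' hρ'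
      _ = _ := by
          simp only [← Finset.mul_sum, Finset.sum_add_distrib, Finset.sum_const, nsmul_eq_mul]
          ring
  have hDT : (L : ℝ) * ∑ ρ ∈ Z, ∑ ρ' ∈ Z, D ρ ρ' ^ 2 ≤ 8 * (C' * T ^ ε * QQ Z L) := by
    have h3 := hDTS Z L (C' * T ^ ε * QQ Z L / L) (by
      intro v
      rw [le_div_iff₀ hL0, mul_comm]
      exact h2 T hT1 Z L L hL1 le_rfl hL2 v)
    calc (L : ℝ) * ∑ ρ ∈ Z, ∑ ρ' ∈ Z, D ρ ρ' ^ 2 ≤ L * (8 * (C' * T ^ ε * QQ Z L / L)) :=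
          mul_le_mul_of_nonneg_left h3 hL0.le
      _ = _ := by field_simp
  have hQ0 : 0 ≤ QQ Z L := by
    unfold QQ
    exact Finset.sum_nonneg fun _ _ => Finset.sum_nonneg fun _ _ => by positivity
  have hTe : 1 ≤ T ^ ε := Real.one_le_rpow hT1 hε.le
  calc (L : ℝ) * ∑ ρ ∈ Z, ∑ ρ' ∈ Z, (if Real.log T ≤ |ρ.im - ρ'.im| then
      ‖SS M (z ρ ρ') (ρ.im - ρ'.im)‖ ^ 2 else 0)
      ≤ L * (C₀ ^ 2 * (8 * (Z.card : ℝ) ^ 2 + 2 * M * ∑ ρ ∈ Z, ∑ ρ' ∈ Z, D ρ ρ' ^ 2)) :=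
        mul_le_mul_of_nonneg_left hsum hL0.le
    _ = C₀ ^ 2 * (8 * (L * (Z.card : ℝ) ^ 2) + 2 * M * (L * ∑ ρ ∈ Z, ∑ ρ' ∈ Z, D ρ ρ' ^ 2)) := by ring
    _ ≤ C₀ ^ 2 * (8 * QQ Z L + 2 * M * (8 * (C' * T ^ ε * QQ Z L))) := by
        apply mul_le_mul_of_nonneg_left _ (by positivity)
        apply add_le_add
        · exact mul_le_mul_of_nonneg_left (hQTR Z L) (by norm_num)
        · exact mul_le_mul_of_nonneg_left hDT (by positivity)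
    _ ≤ C₀ ^ 2 * (8 * (T ^ ε * M * QQ Z L) + 2 * M * (8 * (C' * T ^ ε * QQ Z L))) := by
        apply mul_le_mul_of_nonneg_left _ (by positivity)
        apply add_le_add _ le_rfl
        apply mul_le_mul_of_nonneg_left _ (by norm_num)
        have : 1 ≤ T ^ ε * M := by nlinarith
        nlinarith
    _ = _ := by ring

end Pool.Agent.DH
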