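import Pool.Agent.helper15.DH.Spec

set_option autoImplicit false

open Complex MeasureTheory

namespace Pool.Agent.DH

open Pool.Agent.helper84.DM Pool.Agent.helper78.ED

theorem ALG : ALG_stmt := by
  intro R Q A B N L X σ k hR hQ hA hB hN hL hX hk hNX hXN hLX hσ hσ1 h1 h2
  have hN0 : (0 : ℝ) < N := by linarith
  have hX0 : (0 : ℝ) < X := by linarith
  have hA0 : (0 : ℝ) < A := by linarith
  have hB0 : (0 : ℝ) < B := by linarith
  have hXp : (0 : ℝ) < X ^ (2 * (1 - σ)) := Real.rpow_pos_of_pos hX0 _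
  rcases hR.eq_or_lt with hR0 | hR0
  · rw [← hR0]; positivity
  set M : ℝ := N ^ k with hM
  have hM0 : 0 < M := by positivity
  have hM1 : 1 ≤ M := one_le_pow₀ hN
  set P : ℝ := A * (M * M ^ (-(2 * σ))) with hP
  have hP0 : 0 < P := by positivity
  have hS0 : 0 ≤ (M * Q / L) ^ (1 / 2 : ℝ) := by positivity
  have hdiv : R ≤ P * M + P * (M * Q / L) ^ (1 / 2 : ℝ) := by
    have : R * R ≤ (P * M + P * (M * Q / L) ^ (1 / 2 : ℝ)) * R := by
      calc R * R = R ^ 2 := by ring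
        _ ≤ _ := h1
        _ = _ := by ring
    exact le_of_mul_le_mul_right this hR0
  rcases le_total ((M * Q / L) ^ (1 / 2 : ℝ)) M with hc | hc
  · -- first case
    have h3 : R ≤ 2 * A * M ^ (2 * (1 - σ)) := by
      have : P * M = A * M ^ (2 * (1 - σ)) := by
        rw [hP]
        have e : M ^ (2 * (1 - σ)) = M ^ (2 : ℝ) * M ^ (-(2 * σ)) := by
          rw [← Real.rpow_add hM0]; congr 1; ring
        rw [e]
        have : M ^ (2 : ℝ) = M ^ (2 : ℕ) := by norm_cast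
        rw [this]; ring
      have h4 : P * (M * Q / L) ^ (1 / 2 : ℝ) ≤ P * M := mul_le_mul_of_nonneg_left hc hP0.le
      linarith
    have h5 : M ^ (2 * (1 - σ)) ≤ X ^ (2 * (1 - σ)) :=
      Real.rpow_le_rpow hM0.le hNX (by linarith)
    have h6 : 2 * A * M ^ (2 * (1 - σ)) ≤ 2 * A * X ^ (2 * (1 - σ)) :=
      mul_le_mul_of_nonneg_left h5 (by positivity)
    have h7 : 2 * A * X ^ (2 * (1 - σ)) ≤ 8 * A ^ 2 * B * X ^ (2 * (1 - σ)) := by
      apply mul_le_mul_of_nonneg_right _ hXp.le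
      nlinarith [mul_le_mul hA hB zero_le_one hA0.le, mul_pos hA0 hA0, mul_pos hA0 hB0,
        mul_pos (mul_pos hA0 hA0) hB0, mul_nonneg (mul_nonneg hA0.le (sub_nonneg.2 hA)) (sub_nonneg.2 hB),
        mul_nonneg hA0.le (sub_nonneg.2 hA), mul_nonneg hA0.le (sub_nonneg.2 hB),
        mul_nonneg (mul_nonneg hA0.le hA0.le) (sub_nonneg.2 hB)]
    linarith
  · -- second case
    have h3 : R ≤ 2 * (P * (M * Q / L) ^ (1 / 2 : ℝ)) := by
      have h4 : P * M ≤ P * (M * Q / L) ^ (1 / 2 : ℝ) := mul_le_mul_of_nonneg_left hc hP0.le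
      linarith
    have h4 : R ^ 2 ≤ 4 * P ^ 2 * (M * Q / L) := by
      have h5 : R ^ 2 ≤ (2 * (P * (M * Q / L) ^ (1 / 2 : ℝ))) ^ 2 :=
        pow_le_pow_left₀ hR h3 2
      have h6 : ((M * Q / L) ^ (1 / 2 : ℝ)) ^ 2 = M * Q / L := by
        rw [← Real.rpow_natCast, ← Real.rpow_mul (by positivity)]
        norm_num
      calc R ^ 2 ≤ _ := h5
        _ = 4 * P ^ 2 * ((M * Q / L) ^ (1 / 2 : ℝ)) ^ 2 := by ring
        _ = _ := by rw [h6]
    have h5 : R ≤ 4 * P ^ 2 * M * (B * N ^ (2 - 2 * σ) * L) := by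
      have h6 : M * Q / L ≤ M * (B * N ^ (2 - 2 * σ) * L * R) := by
        rw [div_le_iff₀ hL]
        calc M * Q ≤ M * (B * (N ^ (2 - 2 * σ) * L ^ 2 * R)) := mul_le_mul_of_nonneg_left h2 hM0.le
          _ = _ := by ring
      have h7 : R * R ≤ (4 * P ^ 2 * M * (B * N ^ (2 - 2 * σ) * L)) * R := by
        calc R * R = R ^ 2 := by ring
          _ ≤ _ := h4
          _ ≤ 4 * P ^ 2 * (M * (B * N ^ (2 - 2 * σ) * L * R)) :=
            mul_le_mul_of_nonneg_left h6 (by positivity)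
          _ = _ := by ring
      exact le_of_mul_le_mul_right h7 hR0
    have hNp : 0 < N ^ (2 - 2 * σ) := Real.rpow_pos_of_pos hN0 _
    have h6 : R ≤ 4 * P ^ 2 * M * (B * N ^ (2 - 2 * σ) * (2 * (X / N) ^ (1 / 2 : ℝ))) := by
      refine h5.trans ?_
      apply mul_le_mul_of_nonneg_left _ (by positivity)
      exact mul_le_mul_of_nonneg_left hLX (by positivity)
    have h7 : 4 * P ^ 2 * M * (B * N ^ (2 - 2 * σ) * (2 * (X / N) ^ (1 / 2 : ℝ)))
        = 8 * A ^ 2 * B * (X ^ (1 / 2 : ℝ) * (N ^ (2 * k + 1)) ^ ((3 - 4 * σ) / 2)) := by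
      have e1 : P ^ 2 * M = A ^ 2 * M ^ (3 - 4 * σ) := by
        rw [hP]
        have e : M ^ (3 - 4 * σ) = M ^ (3 : ℝ) * (M ^ (-(2 * σ))) ^ (2 : ℕ) := by
          rw [← Real.rpow_natCast (M ^ (-(2 * σ))), ← Real.rpow_mul hM0.le, ← Real.rpow_add hM0]
          congr 1; push_cast; ring
        rw [e]
        have : M ^ (3 : ℝ) = M ^ (3 : ℕ) := by norm_cast
        rw [this]; ring
      have e2 : M ^ (3 - 4 * σ) * N ^ (2 - 2 * σ) * (X / N) ^ (1 / 2 : ℝ)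
          = X ^ (1 / 2 : ℝ) * (N ^ (2 * k + 1)) ^ ((3 - 4 * σ) / 2) := by
        rw [Real.div_rpow hX0.le hN0.le, hM, ← Real.rpow_natCast N k, ← Real.rpow_natCast N (2 * k + 1),
          ← Real.rpow_mul hN0.le, ← Real.rpow_mul hN0.le, ← Real.rpow_add hN0, mul_div_assoc',
          mul_comm (N ^ (_ : ℝ)) (X ^ (1 / 2 : ℝ)), mul_div_assoc, ← Real.rpow_sub hN0]
        congr 2; push_cast; ring
      calc 4 * P ^ 2 * M * (B * N ^ (2 - 2 * σ) * (2 * (X / N) ^ (1 / 2 : ℝ)))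
          = 8 * B * (P ^ 2 * M) * (N ^ (2 - 2 * σ) * (X / N) ^ (1 / 2 : ℝ)) := by ring
        _ = 8 * A ^ 2 * B * (M ^ (3 - 4 * σ) * N ^ (2 - 2 * σ) * (X / N) ^ (1 / 2 : ℝ)) := by
            rw [e1]; ring
        _ = _ := by rw [e2]
    have h8 : (N ^ (2 * k + 1)) ^ ((3 - 4 * σ) / 2) ≤ X ^ ((3 - 4 * σ) / 2) := by
      apply Real.rpow_le_rpow_of_nonpos hX0 _ (by linarith)
      exact hXN.trans (pow_le_pow_right₀ hN (by omega))
    have h9 : X ^ (1 / 2 : ℝ) * X ^ ((3 - 4 * σ) / 2) = X ^ (2 * (1 - σ)) := by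
      rw [← Real.rpow_add hX0]; congr 1; ring
    calc R ≤ _ := h6
      _ = _ := h7
      _ ≤ 8 * A ^ 2 * B * (X ^ (1 / 2 : ℝ) * X ^ ((3 - 4 * σ) / 2)) := by
          apply mul_le_mul_of_nonneg_left _ (by positivity)
          exact mul_le_mul_of_nonneg_left h8 (by positivity)
      _ = _ := by rw [h9]

end Pool.Agent.DH
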